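import Pool.Agent.Lib.MP_3ace2b_pr.Prob

/-!
Borel–Cantelli: almost surely the deterministic criterion holds from some time on.
-/

open MeasureTheory ProbabilityTheory Filter Topology
open scoped ENNReal

namespace Pool.Agent.Lib.MP_3ace2b_pr

theorem xk_pos (k : ℕ) : (0 : ℝ) < 1 - 1 / (k + 2) := by
  have : (1 : ℝ) / (k + 2) < 1 := by
    rw [div_lt_one (by positivity)]
    have : (0 : ℝ) ≤ k := by positivity
    linarith
  linarith

theorem xk_lt (k : ℕ) : (1 : ℝ) - 1 / (k + 2) < 1 := by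
  have : (0 : ℝ) < 1 / (k + 2) := by positivity
  linarith

theorem hasSum_aux (k : ℕ) :
    HasSum (fun m : ℕ => (m : ℝ) * (pw k ^ 2 * (1 - 1 / ((k : ℝ) + 2)) ^ (m - 1)))
      (1 / ((k : ℝ) + 1) ^ 2) := by
  set x : ℝ := 1 - 1 / ((k : ℝ) + 2) with hx
  have hx0 : 0 < x := xk_pos k
  have hx1 : x < 1 := xk_lt k
  have h := hasSum_coe_mul_geometric_of_norm_lt_one (r := x)
    (by rw [Real.norm_eq_abs, abs_of_pos hx0]; exact hx1)
  have h2 := h.mul_left (pw k ^ 2 / x)
  have h3 : pw k ^ 2 / x * (x / (1 - x) ^ 2) = 1 / ((k : ℝ) + 1) ^ 2 := by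
    have h4 : 1 - x = 1 / ((k : ℝ) + 2) := by rw [hx]; ring
    rw [h4, pw]
    field_simp
  rw [h3] at h2
  have h5 : (fun m : ℕ => (m : ℝ) * (pw k ^ 2 * x ^ (m - 1))) =
      fun m : ℕ => pw k ^ 2 / x * ((m : ℝ) * x ^ m) := by
    ext m
    rcases m with _ | m
    · simp
    · rw [Nat.add_sub_cancel, pow_succ]
      field_simp
      ring
  rw [h5]
  exact h2

theorem sum_bad1 : ∑' m, PP0 (Bad1 m) ≠ ∞ := by
  have h1 : ∑' m, PP0 (Bad1 m) ≤ ∑' m : ℕ, ∑' k : ℕ, (m : ℝ≥0∞) * (ENNReal.ofReal (pw k) ^ 2 *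
      ENNReal.ofReal (1 - 1 / (k + 2)) ^ (m - 1)) := ENNReal.tsum_le_tsum bad1_prob
  refine ne_top_of_le_ne_top ?_ h1
  rw [ENNReal.tsum_comm]
  have h2 : ∀ k : ℕ, ∑' m : ℕ, (m : ℝ≥0∞) * (ENNReal.ofReal (pw k) ^ 2 *
      ENNReal.ofReal (1 - 1 / (k + 2)) ^ (m - 1)) = ENNReal.ofReal (1 / ((k : ℝ) + 1) ^ 2) := by
    intro k
    have hs := hasSum_aux k
    rw [← hs.tsum_eq, ENNReal.ofReal_tsum_of_nonneg _ hs.summable]
    · congr 1
      ext m
      rw [ENNReal.ofReal_mul (by positivity), ENNReal.ofReal_natCast,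
        ENNReal.ofReal_mul (by positivity), ENNReal.ofReal_pow (pw_pos k).le,
        ENNReal.ofReal_pow (xk_pos k).le]
    · intro m
      have := (xk_pos k).le
      positivity
  simp only [h2]
  have h3 : Summable (fun k : ℕ => 1 / ((k : ℝ) + 1) ^ 2) := by
    have := (summable_nat_add_iff 1).mpr (Real.summable_one_div_nat_pow.mpr (one_lt_two))
    simpa using this
  rw [← ENNReal.ofReal_tsum_of_nonneg (fun k => by positivity) h3]
  exact ENNReal.ofReal_ne_top

theorem sum_bad2 : ∑' K, PP0 (Bad2 K) ≠ ∞ := by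
  have h1 : ∀ K : ℕ, PP0 (Bad2 K) ≤ ENNReal.ofReal (Real.exp (-1) ^ K) := by
    intro K
    rw [bad2_prob, ← ENNReal.ofReal_pow (xk_pos K).le]
    apply ENNReal.ofReal_le_ofReal
    have h2 : (1 : ℝ) - 1 / (K + 2) ≤ Real.exp (-(1 / (K + 2))) := by
      have := Real.add_one_le_exp (-(1 / ((K : ℝ) + 2)))
      linarith
    calc (1 - 1 / ((K : ℝ) + 2)) ^ fdur K ≤ Real.exp (-(1 / (K + 2))) ^ fdur K :=
          pow_le_pow_left₀ (xk_pos K).le h2 _
      _ = Real.exp (-(K + 2)) := by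
          rw [← Real.exp_nat_mul, fdur]
          congr 1
          push_cast
          field_simp
      _ ≤ Real.exp (-1) ^ K := by
          rw [← Real.exp_nat_mul]
          apply Real.exp_le_exp.mpr
          linarith
  refine ne_top_of_le_ne_top ?_ (ENNReal.tsum_le_tsum h1)
  have h3 : Summable (fun K : ℕ => Real.exp (-1) ^ K) :=
    summable_geometric_of_lt_one (Real.exp_pos _).le (by
      rw [Real.exp_lt_one_iff]; norm_num)
  rw [← ENNReal.ofReal_tsum_of_nonneg (fun k => by positivity) h3]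
  exact ENNReal.ofReal_ne_top

/-- Deterministic consequence of eventually avoiding the bad events. -/
theorem top_of_good (σ : ℕ → ℕ × Bool) (h1 : ∀ᶠ m in atTop, σ ∉ Bad1 m)
    (h2 : ∀ᶠ K in atTop, σ ∉ Bad2 K) : ∃ n ≥ 1, ∀ m ≥ n, ∃ T, Top σ m T := by
  obtain ⟨m₀, hm₀⟩ := eventually_atTop.mp h1
  obtain ⟨K₀, hK₀⟩ := eventually_atTop.mp h2
  -- a level above all the first indices
  set B : ℕ := max (max K₀ 2) ((Finset.range m₀).sup (fun i => (σ i).1)) with hB
  have hBK : K₀ ≤ B := le_trans (le_max_left _ _) (le_max_left _ _)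
  have hB2 : 2 ≤ B := le_trans (le_max_right K₀ 2) (le_max_left _ _)
  have hBm : ∀ i < m₀, (σ i).1 ≤ B := fun i hi =>
    le_trans (Finset.le_sup (f := fun i => (σ i).1) (Finset.mem_range.mpr hi)) (le_max_right _ _)
  -- some index is above `B`
  have hex : ∃ i, B < (σ i).1 := by
    have h3 := hK₀ B hBK
    simp only [Bad2, Set.mem_ofPred_eq] at h3
    push Not at h3
    obtain ⟨i, _, hi⟩ := h3
    exact ⟨i, hi⟩
  classical
  set T₀ := Nat.find hex with hT₀
  have hT₀s : B < (σ T₀).1 := Nat.find_spec hex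
  have hT₀m : ∀ i < T₀, (σ i).1 ≤ B := fun i hi => not_lt.mp (Nat.find_min hex hi)
  have hm₀T : m₀ ≤ T₀ := by
    by_contra hlt
    push Not at hlt
    have := hBm T₀ hlt
    omega
  -- the structure without `dur`
  have key : ∀ m ≥ T₀ + 1, ∃ T < m, B < (σ T).1 ∧ ∀ i < m, i ≠ T → (σ i).1 < (σ T).1 := by
    intro m hm
    induction m, hm using Nat.le_induction with
    | base =>
      refine ⟨T₀, by omega, hT₀s, ?_⟩
      intro i hi hne
      have := hT₀m i (by omega)
      omega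
    | succ m hm ih =>
      obtain ⟨T, hTm, hTB, hTmax⟩ := ih
      have hb := hm₀ m (by omega)
      rcases lt_trichotomy (σ m).1 (σ T).1 with hlt | heq | hgt
      · refine ⟨T, by omega, hTB, ?_⟩
        intro i hi hne
        rcases Nat.lt_or_ge i m with him | him
        · exact hTmax i him hne
        · have : i = m := by omega
          rw [this]; exact hlt
      · exfalso
        apply hb
        refine ⟨T, hTm, heq, ?_⟩
        intro i hi
        by_cases hiT : i = T
        · rw [hiT, heq]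
        · rw [heq]; exact (hTmax i hi hiT).le
      · refine ⟨m, by omega, by omega, ?_⟩
        intro i hi hne
        have him : i < m := by omega
        by_cases hiT : i = T
        · rw [hiT]; exact hgt
        · exact (hTmax i him hiT).trans hgt
  refine ⟨T₀ + 1, by omega, ?_⟩
  intro m hm
  obtain ⟨T, hTm, hTB, hTmax⟩ := key m hm
  refine ⟨T, hTm, by omega, hTmax, ?_⟩
  -- duration
  by_contra hdur
  push Not at hdur
  have h3 := hK₀ (σ T).1 (by omega)
  apply h3
  intro i hi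
  by_cases hiT : i = T
  · rw [hiT]
  · exact (hTmax i (by omega) hiT).le

theorem ae_top : ∀ᵐ σ ∂PP0, ∃ n ≥ 1, ∀ m ≥ n, ∃ T, Top σ m T := by
  filter_upwards [ae_eventually_notMem sum_bad1, ae_eventually_notMem sum_bad2] with σ h1 h2
  exact top_of_good σ h1 h2

end Pool.Agent.Lib.MP_3ace2b_pr
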