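import Mathlib

/-!
Random walks on a countable group and algebraic recurrence: definitions.
-/

open MeasureTheory

namespace Pool.Agent.Lib.MP_3ace2b_pr

/-- The position `X_n = ζ_1 ζ_2 ⋯ ζ_n` of the walk at time `n`, where `ζ_(i+1) = ω i`. -/
def position {G : Type} [Group G] (ω : ℕ → G) (n : ℕ) : G := ((List.range n).map ω).prod

/-- The subsemigroup generated by `X_n, X_(n+1), …`. -/
def semigroupFrom {G : Type} [Group G] (ω : ℕ → G) (n : ℕ) : Subsemigroup G :=
  Subsemigroup.closure {g | ∃ m ≥ n, g = position ω m}

/-- The law of the i.i.d. sequence of increments with law `μ` (an infinite product measure, the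
countable group `G` carrying the discrete σ-algebra). -/
noncomputable def iidLaw {G : Type} (μ : PMF G) :
    @Measure (ℕ → G) (@MeasurableSpace.pi ℕ (fun _ => G) (fun _ => ⊤)) :=
  @Measure.infinitePi ℕ (fun _ => G) (fun _ => ⊤) (fun _ => @PMF.toMeasure G ⊤ μ)

end Pool.Agent.Lib.MP_3ace2b_pr
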