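import Pool.Agent.Lib.MP_3ace2b_pr.Syl

/-!
The deterministic part: if, from time `n` on, the largest index among the increments so far occurs
exactly once and not too long ago, then no product of the positions `X_m`, `m ≥ n`, is trivial.
-/

namespace Pool.Agent.Lib.MP_3ace2b_pr

/-- bound on the time during which a given index is the maximal one -/
def fdur (k : ℕ) : ℕ := (k + 2) ^ 2

/-- the exponents -/
def ee : ℕ → ℕ
  | 0 => 1
  | k + 1 => 10 * (fdur (k + 1) + 1) * ee k

theorem ee_pos (k : ℕ) : 0 < ee k := by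
  induction k with
  | zero => norm_num [ee]
  | succ k ih => rw [ee]; positivity

theorem ee_mono {j k : ℕ} (h : j ≤ k) : ee j ≤ ee k := by
  induction k, h using Nat.le_induction with
  | base => exact le_rfl
  | succ k _ ih =>
    refine le_trans ih ?_
    rw [ee]
    have := ee_pos k
    nlinarith [Nat.zero_le (fdur (k + 1))]

def sgnz (s : Bool) : ℤ := if s then 1 else -1

theorem sgnz_not (s : Bool) : sgnz (!s) = - sgnz s := by cases s <;> simp [sgnz]

theorem abs_sgnz (s : Bool) : |sgnz s| = 1 := by cases s <;> simp [sgnz]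

/-- the step with index `k` and sign `s` -/
def st : ℕ → Bool → F2
  | 0, s => ga ^ sgnz s
  | 1, s => gb ^ sgnz s
  | (k + 2), s => blk (sgnz s * ee (k + 2))

theorem st_not (k : ℕ) (s : Bool) : st k (!s) = (st k s)⁻¹ := by
  rcases k with _ | _ | k
  · simp [st, sgnz_not]
  · simp [st, sgnz_not]
  · simp only [st, sgnz_not, blk, neg_mul, zpow_neg, mul_inv_rev, mul_assoc]

theorem st_blk (k : ℕ) (hk : 2 ≤ k) (s : Bool) : st k s = blk (sgnz s * ee k) := by
  obtain ⟨k, rfl⟩ : ∃ j, k = j + 2 := ⟨k - 2, by omega⟩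
  rfl

theorem bd_st (k : ℕ) (s : Bool) : Bd (ee k) (st k s) := by
  have h1 : sgnz s ≠ 0 := by cases s <;> simp [sgnz]
  rcases k with _ | _ | k
  · refine ⟨false, [sgnz s], OK.cons h1 ?_ (OK.nil _), by simp [ev, st, gen]⟩
    rw [abs_sgnz]; simp [ee]
  · refine ⟨true, [sgnz s], OK.cons h1 ?_ (OK.nil _), by simp [ev, st, gen]⟩
    rw [abs_sgnz]
    exact_mod_cast ee_pos 1
  · have h2 : sgnz s * (ee (k + 2) : ℤ) ≠ 0 := by
      have := ee_pos (k + 2)
      have h3 : (ee (k + 2) : ℤ) ≠ 0 := by exact_mod_cast this.ne'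
      exact mul_ne_zero h1 h3
    have h3 : |sgnz s * (ee (k + 2) : ℤ)| ≤ ee (k + 2) := by
      rw [abs_mul, abs_sgnz, one_mul, Nat.abs_cast]
    refine ⟨true, [_, _, _], OK.cons h2 h3 (OK.cons h2 h3 (OK.cons h2 h3 (OK.nil _))), ?_⟩
    simp [ev, st, gen, blk]

/-- the walk driven by the sequence `σ` of indices and signs -/
def walk (ζ : ℕ → F2) : ℕ → F2
  | 0 => 1
  | m + 1 => walk ζ m * ζ m

def seg (ζ : ℕ → F2) (i : ℕ) : ℕ → F2
  | 0 => 1
  | l + 1 => seg ζ i l * ζ (i + l)

theorem walk_add (ζ : ℕ → F2) (i l : ℕ) : walk ζ (i + l) = walk ζ i * seg ζ i l := by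
  induction l with
  | zero => simp [seg]
  | succ l ih => rw [← add_assoc, walk, ih, seg, mul_assoc]

theorem bd_walk (ζ : ℕ → F2) (M m : ℕ) (h : ∀ j < m, Bd M (ζ j)) : Bd (m * M) (walk ζ m) := by
  induction m with
  | zero => exact Bd.one _
  | succ m ih =>
    rw [walk, Nat.succ_mul]
    exact (ih (fun j hj => h j (by omega))).mul (h m (by omega))

theorem bd_seg (ζ : ℕ → F2) (M i l : ℕ) (h : ∀ j < l, Bd M (ζ (i + j))) :
    Bd (l * M) (seg ζ i l) := by
  induction l with
  | zero => exact Bd.one _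
  | succ l ih =>
    rw [seg, Nat.succ_mul]
    exact (ih (fun j hj => h j (by omega))).mul (h l (by omega))

variable (σ : ℕ → ℕ × Bool)

/-- the increments -/
def zet (i : ℕ) : F2 := st (σ i).1 (σ i).2

/-- at time `m`, the increment number `T` has the strictly largest index, which is large compared
to `m` -/
structure Top (m T : ℕ) : Prop where
  lt : T < m
  two : 2 ≤ (σ T).1
  max : ∀ i < m, i ≠ T → (σ i).1 < (σ T).1
  dur : m ≤ fdur (σ T).1

variable {σ}

theorem Top.unique {m m' T T' : ℕ} (h : Top σ m T) (h' : Top σ m' T')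
    (he : (σ T).1 = (σ T').1) : T = T' := by
  by_contra hne
  rcases Nat.lt_or_ge T m' with h1 | h1
  · have := h'.max T h1 hne
    omega
  · have h2 : T' < m := lt_of_lt_of_le h'.lt (h1.trans h.lt.le)
    have := h.max T' h2 (fun h3 => hne h3.symm)
    omega

/-- decomposition of the position at time `m` -/
theorem Top.decomp {m T K : ℕ} (h : Top σ m T) (hK : (σ T).1 = K + 1) :
    ∃ g g', Bd (fdur (K + 1) * ee K) g ∧ Bd (fdur (K + 1) * ee K) g' ∧
      walk (zet σ) m = g * blk (sgnz (σ T).2 * ee (K + 1)) * g' := by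
  obtain ⟨l, rfl⟩ : ∃ l, m = (T + 1) + l := ⟨m - (T + 1), by have := h.lt; omega⟩
  have hdur := h.dur
  rw [hK] at hdur
  have hb : ∀ i < T + 1 + l, i ≠ T → Bd (ee K) (zet σ i) := by
    intro i hi hne
    have h1 := h.max i hi hne
    rw [hK] at h1
    exact (bd_st _ _).mono (ee_mono (by omega))
  refine ⟨walk (zet σ) T, seg (zet σ) (T + 1) l, ?_, ?_, ?_⟩
  · refine (bd_walk _ (ee K) T (fun j hj => hb j (by omega) (by omega))).mono ?_
    exact Nat.mul_le_mul_right _ (by omega)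
  · refine (bd_seg _ (ee K) (T + 1) l (fun j hj => hb _ (by omega) (by omega))).mono ?_
    exact Nat.mul_le_mul_right _ (by omega)
  · rw [walk_add, walk]
    have h2 := h.two
    have : zet σ T = blk (sgnz (σ T).2 * ee (K + 1)) := by
      rw [zet, st_blk _ h2, hK]
    rw [this]

/-- product of the positions at the times in a list -/
def PP (σ : ℕ → ℕ × Bool) (ms : List ℕ) : F2 := (ms.map (walk (zet σ))).prod

theorem PP_nil : PP σ [] = 1 := rfl

theorem PP_cons (m : ℕ) (ms : List ℕ) : PP σ (m :: ms) = walk (zet σ) m * PP σ ms := by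
  simp [PP]

/-- time `m` has level at most `K` -/
def Lev (σ : ℕ → ℕ × Bool) (K m : ℕ) : Prop := ∃ T, Top σ m T ∧ (σ T).1 ≤ K

theorem main_step (K : ℕ)
    (ih : ∀ ms : List ℕ, (∀ m ∈ ms, Lev σ K m) → Bd (3 * ee K) (PP σ ms) ∧
      (ms ≠ [] → PP σ ms ≠ 1)) (x : ℤ) (hx : |x| = ee (K + 1))
    (hsign : ∀ m T, Top σ m T → (σ T).1 = K + 1 → sgnz (σ T).2 * ee (K + 1) = x)
    (ms : List ℕ) (hms : ∀ m ∈ ms, Lev σ (K + 1) m) :
    ∃ ps c v, (∀ m ∈ ps, Lev σ K m) ∧ Bd (fdur (K + 1) * ee K) c ∧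
      (v = 1 ∨ Wf (ee (K + 1)) x v) ∧ PP σ ms = PP σ ps * c * v ∧
      (Wf (ee (K + 1)) x v ∨ (v = 1 ∧ c = 1 ∧ ps = ms)) := by
  induction ms with
  | nil =>
    exact ⟨[], 1, 1, by simp, Bd.one _, Or.inl rfl, by simp [PP], Or.inr ⟨rfl, rfl, rfl⟩⟩
  | cons m ms ihl =>
    obtain ⟨ps, c, v, h1, h2, h3, h4, h5⟩ := ihl (fun m' hm' => hms m' (by simp [hm']))
    obtain ⟨T, hT, hTK⟩ := hms m (by simp)
    rcases Nat.lt_or_ge (σ T).1 (K + 1) with hlt | hge
    · refine ⟨m :: ps, c, v, ?_, h2, h3, ?_, ?_⟩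
      · intro m' hm'
        rcases List.mem_cons.mp hm' with rfl | hm'
        · exact ⟨T, hT, by omega⟩
        · exact h1 m' hm'
      · rw [PP_cons, PP_cons, h4]
        simp only [mul_assoc]
      · rcases h5 with h5 | ⟨h5, h6, h7⟩
        · exact Or.inl h5
        · exact Or.inr ⟨h5, h6, by rw [h7]⟩
    · have hTe : (σ T).1 = K + 1 := by omega
      obtain ⟨g, g', hg, hg', hw⟩ := hT.decomp hTe
      rw [hsign m T hT hTe] at hw
      have hd : Bd (fdur (K + 1) * ee K + 3 * ee K + fdur (K + 1) * ee K) (g' * PP σ ps * c) :=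
        (hg'.mul (ih ps h1).1).mul h2
      have hee : ee (K + 1) = 10 * (fdur (K + 1) + 1) * ee K := rfl
      have hpos := ee_pos K
      have hD : 2 * (fdur (K + 1) * ee K + 3 * ee K + fdur (K + 1) * ee K) < ee (K + 1) := by
        rw [hee]; nlinarith [Nat.zero_le (fdur (K + 1) * ee K)]
      have hW := block_step _ (ee (K + 1)) x hx hD _ v hd h3
      refine ⟨[], g, _, by simp, hg, Or.inr hW, ?_, Or.inl hW⟩
      rw [PP_cons, h4, hw, PP_nil, one_mul]
      simp only [mul_assoc]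

theorem main_bound (K : ℕ) : ∀ ms : List ℕ, (∀ m ∈ ms, Lev σ K m) →
    Bd (3 * ee K) (PP σ ms) ∧ (ms ≠ [] → PP σ ms ≠ 1) := by
  induction K with
  | zero =>
    intro ms hms
    have : ms = [] := by
      rw [List.eq_nil_iff_forall_not_mem]
      intro m hm
      obtain ⟨T, hT, hTK⟩ := hms m hm
      have := hT.two
      omega
    subst this
    exact ⟨Bd.one _, fun h => absurd rfl h⟩
  | succ K ih =>
    intro ms hms
    have hmono : 3 * ee K ≤ 3 * ee (K + 1) := Nat.mul_le_mul_left _ (ee_mono (by omega))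
    by_cases hex : ∃ m T, Top σ m T ∧ (σ T).1 = K + 1
    · obtain ⟨m₀, T₀, hT₀, hK₀⟩ := hex
      have hx : |sgnz (σ T₀).2 * (ee (K + 1) : ℤ)| = ee (K + 1) := by
        rw [abs_mul, abs_sgnz, one_mul, Nat.abs_cast]
      obtain ⟨ps, c, v, h1, h2, h3, h4, h5⟩ := main_step K ih (sgnz (σ T₀).2 * ee (K + 1)) hx
        (by
          intro m T hT hTK
          have : T = T₀ := hT.unique hT₀ (by rw [hTK, hK₀])
          rw [this]) ms hms
      rcases h5 with h5 | ⟨h5, h6, h7⟩
      · have hd : Bd (3 * ee K + fdur (K + 1) * ee K) (PP σ ps * c) := (ih ps h1).1.mul h2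
        have hee : ee (K + 1) = 10 * (fdur (K + 1) + 1) * ee K := rfl
        have hpos := ee_pos K
        have hD : 2 * (3 * ee K + fdur (K + 1) * ee K) < ee (K + 1) := by
          rw [hee]; nlinarith [Nat.zero_le (fdur (K + 1) * ee K)]
        have := block_final _ (ee (K + 1)) _ hx hD _ v hd h5
        rw [h4]
        exact ⟨this.1, fun _ => this.2⟩
      · rw [h7] at h1
        have := ih ms h1
        exact ⟨this.1.mono hmono, this.2⟩
    · have h1 : ∀ m ∈ ms, Lev σ K m := by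
        intro m hm
        obtain ⟨T, hT, hTK⟩ := hms m hm
        refine ⟨T, hT, ?_⟩
        have : (σ T).1 ≠ K + 1 := fun h => hex ⟨m, T, hT, h⟩
        omega
      have := ih ms h1
      exact ⟨this.1.mono hmono, this.2⟩

/-- Deterministic criterion. -/
theorem one_not_mem_closure (n : ℕ) (h : ∀ m ≥ n, ∃ T, Top σ m T) :
    (1 : F2) ∉ Subsemigroup.closure {g | ∃ m ≥ n, g = walk (zet σ) m} := by
  have hrep : ∀ u ∈ Subsemigroup.closure {g | ∃ m ≥ n, g = walk (zet σ) m},
      ∃ ms : List ℕ, ms ≠ [] ∧ (∀ m ∈ ms, n ≤ m) ∧ u = PP σ ms := by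
    intro u hu
    induction hu using Subsemigroup.closure_induction with
    | mem u hu =>
      obtain ⟨m, hm, rfl⟩ := hu
      exact ⟨[m], by simp, by simpa using hm, by simp [PP]⟩
    | mul u v _ _ hu hv =>
      obtain ⟨ms, h1, h2, rfl⟩ := hu
      obtain ⟨ms', h1', h2', rfl⟩ := hv
      refine ⟨ms ++ ms', by simp [h1], ?_, by simp [PP]⟩
      intro m hm
      rcases List.mem_append.mp hm with hm | hm
      · exact h2 m hm
      · exact h2' m hm
  intro h1
  obtain ⟨ms, hne, hms, heq⟩ := hrep 1 h1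
  have hK : ∃ K, ∀ m ∈ ms, Lev σ K m := by
    clear hne heq
    induction ms with
    | nil => exact ⟨0, by simp⟩
    | cons m ms ih =>
      obtain ⟨K, hK⟩ := ih (fun m' hm' => hms m' (by simp [hm']))
      obtain ⟨T, hT⟩ := h m (hms m (by simp))
      refine ⟨max K (σ T).1, ?_⟩
      intro m' hm'
      rcases List.mem_cons.mp hm' with rfl | hm'
      · exact ⟨T, hT, le_max_right _ _⟩
      · obtain ⟨T', hT', h2⟩ := hK m' hm'
        exact ⟨T', hT', h2.trans (le_max_left _ _)⟩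
  obtain ⟨K, hK⟩ := hK
  exact (main_bound K ms hK).2 hne heq.symm

end Pool.Agent.Lib.MP_3ace2b_pr
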