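import Pool.Agent.Lib.MP_3ace2b_pr.Defs
import Pool.Agent.Lib.MP_3ace2b_pr.BC

/-!
The law on the free group and the transfer of the almost sure statement.
-/

open MeasureTheory ProbabilityTheory Filter Topology
open scoped ENNReal

namespace Pool.Agent.Lib.MP_3ace2b_pr

theorem position_eq_walk (ζ : ℕ → F2) (m : ℕ) : position ζ m = walk ζ m := by
  induction m with
  | zero => simp [position, walk]
  | succ m ih =>
    rw [walk, ← ih, position, position, List.range_succ, List.map_append, List.prod_append]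
    simp

/-- the law on the free group -/
noncomputable def mu : PMF F2 := nu.map (fun x => st x.1 x.2)

theorem mu_symm (g : F2) : mu g⁻¹ = mu g := by
  rw [mu, PMF.map_apply, PMF.map_apply,
    ← (Equiv.prodCongr (Equiv.refl ℕ) Equiv.boolNot).tsum_eq]
  congr 1
  ext x
  have h1 : (g⁻¹ = st ((Equiv.prodCongr (Equiv.refl ℕ) Equiv.boolNot) x).1
      ((Equiv.prodCongr (Equiv.refl ℕ) Equiv.boolNot) x).2) ↔ g = st x.1 x.2 := by
    have : st ((Equiv.prodCongr (Equiv.refl ℕ) Equiv.boolNot) x).1
      ((Equiv.prodCongr (Equiv.refl ℕ) Equiv.boolNot) x).2 = (st x.1 x.2)⁻¹ := st_not x.1 x.2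
    rw [this, inv_inj]
  have h2 : nu ((Equiv.prodCongr (Equiv.refl ℕ) Equiv.boolNot) x) = nu x := rfl
  simp only [h1, h2]
  congr

theorem nu_pos (x : ℕ × Bool) : nu x ≠ 0 := by
  rw [nu_apply]
  have := pw_pos x.1
  have h : 0 < pw x.1 / 2 := by positivity
  exact (ENNReal.ofReal_pos.mpr h).ne'

theorem st_mem_support (k : ℕ) (s : Bool) : st k s ∈ mu.support := by
  rw [mu, PMF.support_map]
  exact ⟨(k, s), by rw [PMF.mem_support_iff]; exact nu_pos _, rfl⟩

theorem mu_gen : Subgroup.closure mu.support = ⊤ := by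
  rw [eq_top_iff, ← FreeGroup.closure_range_of (Fin 2), Subgroup.closure_le]
  rintro _ ⟨i, rfl⟩
  apply Subgroup.subset_closure
  fin_cases i
  · have := st_mem_support 0 true
    simpa [st, sgnz, ga] using this
  · have := st_mem_support 1 true
    simpa [st, sgnz, gb] using this

section Meas

local instance : MeasurableSpace F2 := ⊤

local instance : DiscreteMeasurableSpace F2 := ⟨fun _ => trivial⟩

instance : Countable F2 := by
  unfold F2 FreeGroup
  infer_instance

theorem measurable_position (m : ℕ) : Measurable (fun ω : ℕ → F2 => position ω m) := by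
  induction m with
  | zero => simp [position]
  | succ m ih =>
    have : (fun ω : ℕ → F2 => position ω (m + 1)) = fun ω => position ω m * ω m := by
      ext1 ω
      rw [position_eq_walk, position_eq_walk, walk]
    rw [this]
    exact ih.mul (measurable_pi_apply m)

theorem measurable_prod (ms : List ℕ) :
    Measurable (fun ω : ℕ → F2 => (ms.map (position ω)).prod) := by
  induction ms with
  | nil => simp
  | cons m ms ih =>
    simp only [List.map_cons, List.prod_cons]
    exact (measurable_position m).mul ih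

theorem one_mem_iff (ω : ℕ → F2) (n : ℕ) : (1 : F2) ∈ semigroupFrom ω n ↔
    ∃ ms : List ℕ, (ms ≠ [] ∧ ∀ m ∈ ms, n ≤ m) ∧ (ms.map (position ω)).prod = 1 := by
  constructor
  · intro h
    have hrep : ∀ u ∈ semigroupFrom ω n,
        ∃ ms : List ℕ, (ms ≠ [] ∧ (∀ m ∈ ms, n ≤ m)) ∧ (ms.map (position ω)).prod = u := by
      intro u hu
      rw [semigroupFrom] at hu
      induction hu using Subsemigroup.closure_induction with
      | mem u hu =>
        obtain ⟨m, hm, rfl⟩ := hu
        exact ⟨[m], ⟨by simp, by simpa using hm⟩, by simp⟩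
      | mul u v _ _ hu hv =>
        obtain ⟨ms, ⟨h1, h2⟩, rfl⟩ := hu
        obtain ⟨ms', ⟨h1', h2'⟩, rfl⟩ := hv
        refine ⟨ms ++ ms', ⟨by simp [h1], ?_⟩, by simp⟩
        intro m hm
        rcases List.mem_append.mp hm with hm | hm
        · exact h2 m hm
        · exact h2' m hm
    exact hrep 1 h
  · rintro ⟨ms, ⟨h1, h2⟩, h3⟩
    rw [← h3]
    clear h3
    induction ms with
    | nil => exact absurd rfl h1
    | cons m ms ih =>
      have hm : position ω m ∈ semigroupFrom ω n :=
        Subsemigroup.subset_closure ⟨m, h2 m (by simp), rfl⟩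
      rcases ms with _ | ⟨m', ms⟩
      · simpa using hm
      · rw [List.map_cons, List.prod_cons]
        exact mul_mem hm (ih (by simp) (fun x hx => h2 x (by simp [hx])))

theorem measurableSet_good :
    MeasurableSet {ω : ℕ → F2 | ∃ n ≥ 1, (1 : F2) ∉ semigroupFrom ω n} := by
  have h : {ω : ℕ → F2 | ∃ n ≥ 1, (1 : F2) ∉ semigroupFrom ω n} =
      ⋃ n : ℕ, ⋃ (_ : n ≥ 1), (⋃ ms : List ℕ, ⋃ (_ : ms ≠ [] ∧ ∀ m ∈ ms, n ≤ m),
        (fun ω : ℕ → F2 => (ms.map (position ω)).prod) ⁻¹' {1})ᶜ := by
    ext ω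
    simp only [one_mem_iff, Set.mem_ofPred_eq, Set.mem_iUnion, Set.mem_compl_iff, exists_prop,
      Set.mem_preimage, Set.mem_singleton_iff]
  rw [h]
  refine MeasurableSet.iUnion fun n => MeasurableSet.iUnion fun _ => MeasurableSet.compl ?_
  exact MeasurableSet.iUnion fun ms => MeasurableSet.iUnion fun _ =>
    measurable_prod ms (MeasurableSet.of_discrete)

theorem iidLaw_mu : iidLaw mu = PP0.map (fun σ i => st (σ i).1 (σ i).2) := by
  have hf : Measurable (fun x : ℕ × Bool => st x.1 x.2) := Measurable.of_discrete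
  have h := Measure.infinitePi_map_pi (fun _ : ℕ => nu.toMeasure)
    (f := fun (_ : ℕ) (x : ℕ × Bool) => st x.1 x.2) (fun _ => hf)
  rw [PP0, h, iidLaw]
  congr 1
  ext1 i
  rw [PMF.toMeasure_map _ nu hf]
  rfl

theorem ae_good : ∀ᵐ ω ∂iidLaw mu, ∃ n ≥ 1, (1 : F2) ∉ semigroupFrom ω n := by
  have hf : Measurable (fun (σ : ℕ → ℕ × Bool) (i : ℕ) => st (σ i).1 (σ i).2) := by
    refine measurable_pi_lambda _ fun i => ?_
    exact (Measurable.of_discrete (f := fun x : ℕ × Bool => st x.1 x.2)).comp
      (measurable_pi_apply i)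
  rw [iidLaw_mu]
  have h := (ae_map_iff (μ := PP0) hf.aemeasurable measurableSet_good).mpr (by
    filter_upwards [ae_top] with σ hσ
    obtain ⟨n, hn, h⟩ := hσ
    refine ⟨n, hn, ?_⟩
    have := one_not_mem_closure n h
    rw [semigroupFrom]
    simp only [position_eq_walk]
    exact this)
  exact h

end Meas

theorem not_ar : ∃ n ≥ 1, 0 < iidLaw mu {ω | semigroupFrom ω n ≠ ⊤} := by
  by_contra hcon
  push Not at hcon
  have h1 : ∀ n : ℕ, ∀ᵐ ω ∂iidLaw mu, n ≥ 1 → semigroupFrom ω n = ⊤ := by
    intro n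
    by_cases hn : n ≥ 1
    · have h2 := hcon n hn
      rw [nonpos_iff_eq_zero] at h2
      filter_upwards [measure_eq_zero_iff_ae_notMem.mp h2] with ω hω _
      by_contra h3
      exact hω h3
    · exact Filter.Eventually.of_forall (fun ω h => absurd h hn)
  have h2 : ∀ᵐ ω ∂iidLaw mu, False := by
    filter_upwards [ae_good, ae_all_iff.mpr h1] with ω h3 h4
    obtain ⟨n, hn, h5⟩ := h3
    rw [h4 n hn] at h5
    exact h5 trivial
  have h3 : iidLaw mu = 0 := by
    rw [← ae_eq_bot]
    exact Filter.eventually_false_iff_eq_bot.mp h2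
  have h4 : iidLaw mu Set.univ = 1 := by
    let _ : MeasurableSpace F2 := ⊤
    exact measure_univ (μ := Measure.infinitePi (fun _ : ℕ => mu.toMeasure))
  rw [h3] at h4
  simp at h4

end Pool.Agent.Lib.MP_3ace2b_pr
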