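import Pool.Agent.Lib.MP_3ace2b_pr.Det

/-!
The probabilistic part: a heavy-tailed law on indices for which, almost surely, from some time on
the largest index occurs exactly once and not too long ago.
-/

open MeasureTheory ProbabilityTheory Filter Topology
open scoped ENNReal

namespace Pool.Agent.Lib.MP_3ace2b_pr

/-- the weight of the index `k` -/
noncomputable def pw (k : ℕ) : ℝ := 1 / ((k + 1) * (k + 2))

theorem pw_pos (k : ℕ) : 0 < pw k := by rw [pw]; positivity

theorem sum_pw (n : ℕ) : ∑ k ∈ Finset.range n, pw k = 1 - 1 / (n + 1) := by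
  induction n with
  | zero => simp
  | succ n ih =>
    rw [Finset.sum_range_succ, ih, pw]
    push_cast
    field_simp
    ring

theorem hasSum_pw : HasSum pw 1 := by
  rw [hasSum_iff_tendsto_nat_of_nonneg (fun k => (pw_pos k).le)]
  simp only [sum_pw]
  have h := tendsto_one_div_add_atTop_nhds_zero_nat (𝕜 := ℝ)
  simpa using (tendsto_const_nhds (x := (1 : ℝ))).sub h

theorem tsum_pw : ∑' k, ENNReal.ofReal (pw k) = 1 := by
  rw [← ENNReal.ofReal_tsum_of_nonneg (fun k => (pw_pos k).le) hasSum_pw.summable,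
    hasSum_pw.tsum_eq, ENNReal.ofReal_one]

/-- the law of (index, sign) -/
noncomputable def nu : PMF (ℕ × Bool) :=
  ⟨fun x => ENNReal.ofReal (pw x.1 / 2), by
    have h : ∑' x : ℕ × Bool, ENNReal.ofReal (pw x.1 / 2) = 1 := by
      rw [ENNReal.tsum_prod']
      rw [← tsum_pw]
      congr 1
      ext k
      simp only [tsum_bool]
      rw [← ENNReal.ofReal_add (by have := pw_pos k; positivity) (by have := pw_pos k; positivity)]
      congr 1
      ring
    rw [← h]
    exact ENNReal.summable.hasSum⟩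

theorem nu_apply (x : ℕ × Bool) : nu x = ENNReal.ofReal (pw x.1 / 2) := rfl

theorem nu_eq (k : ℕ) : nu.toMeasure {x | x.1 = k} = ENNReal.ofReal (pw k) := by
  have h : {x : ℕ × Bool | x.1 = k} = (({(k, true), (k, false)} : Finset (ℕ × Bool)) :
      Set (ℕ × Bool)) := by
    ext ⟨a, b⟩
    cases b <;> simp
  rw [h, PMF.toMeasure_apply_finset, Finset.sum_pair (by simp), nu_apply, nu_apply,
    ← ENNReal.ofReal_add (by have := pw_pos k; positivity) (by have := pw_pos k; positivity)]
  congr 1
  simp only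
  ring

theorem nu_le (k : ℕ) : nu.toMeasure {x | x.1 ≤ k} = ENNReal.ofReal (1 - 1 / (k + 2)) := by
  have h : {x : ℕ × Bool | x.1 ≤ k} = ((Finset.range (k + 1) ×ˢ (Finset.univ : Finset Bool) :
      Finset (ℕ × Bool)) : Set (ℕ × Bool)) := by
    ext ⟨a, b⟩
    simp
  rw [h, PMF.toMeasure_apply_finset, Finset.sum_product]
  have h2 : ∀ j ∈ Finset.range (k + 1), ∑ b : Bool, nu (j, b) = ENNReal.ofReal (pw j) := by
    intro j _
    rw [Fintype.sum_bool, nu_apply, nu_apply,
      ← ENNReal.ofReal_add (by have := pw_pos j; positivity) (by have := pw_pos j; positivity)]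
    congr 1
    simp only
    ring
  rw [Finset.sum_congr rfl h2, ← ENNReal.ofReal_sum_of_nonneg (fun j _ => (pw_pos j).le), sum_pw]
  congr 2
  push_cast
  ring

/-- the law of the sequence of (index, sign) -/
noncomputable def PP0 : Measure (ℕ → ℕ × Bool) := Measure.infinitePi (fun _ : ℕ => nu.toMeasure)

instance : IsProbabilityMeasure PP0 := by
  rw [PP0]; infer_instance

/-- the new index equals the maximum of the previous ones -/
def Bad1 (m : ℕ) : Set (ℕ → ℕ × Bool) :=
  {σ | ∃ j < m, (σ m).1 = (σ j).1 ∧ ∀ i < m, (σ i).1 ≤ (σ m).1}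

/-- the maximum stays small for too long -/
def Bad2 (K : ℕ) : Set (ℕ → ℕ × Bool) := {σ | ∀ i < fdur K, (σ i).1 ≤ K}

theorem bad2_prob (K : ℕ) : PP0 (Bad2 K) = ENNReal.ofReal (1 - 1 / (K + 2)) ^ (fdur K) := by
  have h : Bad2 K = Set.pi (Finset.range (fdur K) : Set ℕ) (fun _ => {x : ℕ × Bool | x.1 ≤ K}) := by
    ext σ
    simp [Bad2, Set.mem_pi]
  rw [h, PP0, Measure.infinitePi_pi _ (fun i _ => MeasurableSet.of_discrete)]
  simp only [nu_le, Finset.prod_const, Finset.card_range]

theorem bad1_prob (m : ℕ) : PP0 (Bad1 m) ≤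
    ∑' k : ℕ, (m : ℝ≥0∞) * (ENNReal.ofReal (pw k) ^ 2 *
      ENNReal.ofReal (1 - 1 / (k + 2)) ^ (m - 1)) := by
  have hsub : Bad1 m ⊆ ⋃ k : ℕ, ⋃ j ∈ Finset.range m,
      Set.pi (Finset.range (m + 1) : Set ℕ) (fun i => if i = m ∨ i = j then
        {x : ℕ × Bool | x.1 = k} else {x : ℕ × Bool | x.1 ≤ k}) := by
    rintro σ ⟨j, hj, h1, h2⟩
    simp only [Set.mem_iUnion]
    refine ⟨(σ m).1, j, by simpa using hj, ?_⟩
    intro i hi
    have hi' : i < m + 1 := by simpa using hi
    show σ i ∈ (if i = m ∨ i = j then {x : ℕ × Bool | x.1 = (σ m).1} else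
      {x : ℕ × Bool | x.1 ≤ (σ m).1})
    split_ifs with h3
    · rcases h3 with rfl | rfl
      · rfl
      · exact h1.symm
    · push Not at h3
      exact h2 i (by omega)
  refine le_trans (measure_mono hsub) ?_
  refine le_trans (measure_iUnion_le _) ?_
  apply ENNReal.tsum_le_tsum
  intro k
  refine le_trans (measure_biUnion_finset_le _ _) ?_
  have h3 : ∀ j ∈ Finset.range m, PP0 (Set.pi (Finset.range (m + 1) : Set ℕ)
      (fun i => if i = m ∨ i = j then {x : ℕ × Bool | x.1 = k} else {x : ℕ × Bool | x.1 ≤ k})) =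
      ENNReal.ofReal (pw k) ^ 2 * ENNReal.ofReal (1 - 1 / (k + 2)) ^ (m - 1) := by
    intro j hj
    have hj' : j < m := by simpa using hj
    rw [PP0, Measure.infinitePi_pi _ (fun i _ => MeasurableSet.of_discrete)]
    have h4 : ∀ i ∈ Finset.range (m + 1), nu.toMeasure (if i = m ∨ i = j then
        {x : ℕ × Bool | x.1 = k} else {x : ℕ × Bool | x.1 ≤ k}) =
        if i = m ∨ i = j then ENNReal.ofReal (pw k) else ENNReal.ofReal (1 - 1 / (k + 2)) := by
      intro i _
      split_ifs
      · exact nu_eq k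
      · exact nu_le k
    rw [Finset.prod_congr rfl h4, Finset.prod_ite, Finset.prod_const, Finset.prod_const]
    have h5 : (Finset.range (m + 1)).filter (fun i => i = m ∨ i = j) = {m, j} := by
      ext i
      simp only [Finset.mem_filter, Finset.mem_range, Finset.mem_insert, Finset.mem_singleton]
      omega
    have h6 : ((Finset.range (m + 1)).filter (fun i => ¬ (i = m ∨ i = j))).card = m - 1 := by
      have h7 := Finset.card_filter_add_card_filter_not (s := Finset.range (m + 1))
        (fun i => i = m ∨ i = j)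
      rw [h5, Finset.card_pair (by omega), Finset.card_range] at h7
      omega
    rw [h6, h5, Finset.card_pair (by omega)]
  rw [Finset.sum_congr rfl h3, Finset.sum_const, Finset.card_range, nsmul_eq_mul]

end Pool.Agent.Lib.MP_3ace2b_pr
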