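import Mathlib

/-!
Syllable calculus in the free group of rank two.
-/

namespace Pool.Agent.Lib.MP_3ace2b_pr

abbrev F2 : Type := FreeGroup (Fin 2)

def ga : F2 := FreeGroup.of 0

def gb : F2 := FreeGroup.of 1

/-- `false` stands for the generator `a`, `true` for `b` -/
def gen (t : Bool) : F2 := if t then gb else ga

/-- the alternating product with exponents `L`, starting with type `t` -/
def ev : Bool → List ℤ → F2
  | _, [] => 1
  | t, x :: L => gen t ^ x * ev (!t) L

/-- nonzero exponents bounded by `M` -/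
def OK (M : ℕ) (L : List ℤ) : Prop := ∀ x ∈ L, x ≠ 0 ∧ |x| ≤ M

/-- all syllable exponents are bounded by `M` -/
def Bd (M : ℕ) (u : F2) : Prop := ∃ t L, OK M L ∧ u = ev t L

theorem OK.mono {M N : ℕ} {L : List ℤ} (h : OK M L) (hMN : M ≤ N) : OK N L := by
  intro x hx
  refine ⟨(h x hx).1, le_trans (h x hx).2 (by exact_mod_cast hMN)⟩

theorem OK.nil (M : ℕ) : OK M [] := by intro x hx; simp at hx

theorem OK.cons {M : ℕ} {x : ℤ} {L : List ℤ} (hx : x ≠ 0) (hx' : |x| ≤ M) (h : OK M L) :
    OK M (x :: L) := by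
  intro y hy
  rcases List.mem_cons.mp hy with rfl | hy
  · exact ⟨hx, hx'⟩
  · exact h y hy

theorem OK.head {M : ℕ} {x : ℤ} {L : List ℤ} (h : OK M (x :: L)) : x ≠ 0 ∧ |x| ≤ M :=
  h x (by simp)

theorem OK.tail {M : ℕ} {x : ℤ} {L : List ℤ} (h : OK M (x :: L)) : OK M L :=
  fun y hy => h y (by simp [hy])

theorem Bd.mono {M N : ℕ} {u : F2} (h : Bd M u) (hMN : M ≤ N) : Bd N u := by
  obtain ⟨t, L, h1, h2⟩ := h
  exact ⟨t, L, h1.mono hMN, h2⟩

theorem Bd.one (M : ℕ) : Bd M 1 := ⟨true, [], OK.nil M, rfl⟩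

theorem mul_ev (M M' : ℕ) (t : Bool) (L : List ℤ) (hL : OK M L) (s : Bool) (R : List ℤ)
    (hR : OK M' R) :
    (∃ L', OK (M + M') L' ∧ ev t L * ev s R = ev t L') ∨
      (∃ s' R', OK M' R' ∧ ev t L * ev s R = ev s' R') := by
  induction L generalizing t with
  | nil => exact Or.inr ⟨s, R, hR, by simp [ev]⟩
  | cons x L ih =>
    obtain ⟨hx, hx'⟩ := hL.head
    have hxM : |x| ≤ ((M + M' : ℕ) : ℤ) := by push_cast; linarith [Int.natCast_nonneg M']
    rw [ev, mul_assoc]
    rcases ih (!t) hL.tail with ⟨L', h1, h2⟩ | ⟨s', R', h1, h2⟩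
    · left
      refine ⟨x :: L', OK.cons hx hxM h1, ?_⟩
      rw [h2, ev]
    · rw [h2]
      rcases R' with _ | ⟨y, R''⟩
      · left
        exact ⟨[x], OK.cons hx hxM (OK.nil _), by simp [ev]⟩
      · by_cases hs : s' = t
        · subst hs
          obtain ⟨hy, hy'⟩ := h1.head
          rw [ev, ← mul_assoc, ← zpow_add]
          by_cases hxy : x + y = 0
          · right
            exact ⟨!s', R'', h1.tail, by rw [hxy]; simp⟩
          · left
            refine ⟨(x + y) :: R'', OK.cons hxy ?_ (h1.tail.mono (by omega)), by rw [ev]⟩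
            push_cast
            exact le_trans (abs_add_le x y) (by linarith)
        · left
          have hs' : s' = !t := by
            cases s' <;> cases t <;> simp_all
          subst hs'
          exact ⟨x :: y :: R'', OK.cons hx hxM (h1.mono (by omega)), by simp only [ev]⟩

theorem Bd.mul {M M' : ℕ} {u v : F2} (hu : Bd M u) (hv : Bd M' v) : Bd (M + M') (u * v) := by
  obtain ⟨t, L, hL, rfl⟩ := hu
  obtain ⟨s, R, hR, rfl⟩ := hv
  rcases mul_ev M M' t L hL s R hR with ⟨L', h1, h2⟩ | ⟨s', R', h1, h2⟩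
  · exact ⟨t, L', h1, h2⟩
  · exact ⟨s', R', h1.mono (by omega), h2⟩

/-! ### Nontriviality -/

def pa : Equiv.Perm (ℤ × ℤ) where
  toFun v := (v.1 + 2 * v.2, v.2)
  invFun v := (v.1 - 2 * v.2, v.2)
  left_inv v := by ext <;> simp
  right_inv v := by ext <;> simp

def pb : Equiv.Perm (ℤ × ℤ) where
  toFun v := (v.1, v.2 + 2 * v.1)
  invFun v := (v.1, v.2 - 2 * v.1)
  left_inv v := by ext <;> simp
  right_inv v := by ext <;> simp

theorem pa_zpow (n : ℤ) (v : ℤ × ℤ) : (pa ^ n) v = (v.1 + 2 * n * v.2, v.2) := by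
  induction n using Int.induction_on generalizing v with
  | zero => simp
  | succ n ih =>
    rw [zpow_add_one, Equiv.Perm.mul_apply, ih]
    simp only [pa, Equiv.coe_fn_mk]
    ext <;> simp; ring
  | pred n ih =>
    rw [zpow_sub_one, Equiv.Perm.mul_apply, ih]
    simp only [pa, Equiv.Perm.inv_def, Equiv.coe_fn_symm_mk]
    ext <;> simp; ring

theorem pb_zpow (n : ℤ) (v : ℤ × ℤ) : (pb ^ n) v = (v.1, v.2 + 2 * n * v.1) := by
  induction n using Int.induction_on generalizing v with
  | zero => simp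
  | succ n ih =>
    rw [zpow_add_one, Equiv.Perm.mul_apply, ih]
    simp only [pb, Equiv.coe_fn_mk]
    ext <;> simp; ring
  | pred n ih =>
    rw [zpow_sub_one, Equiv.Perm.mul_apply, ih]
    simp only [pb, Equiv.Perm.inv_def, Equiv.coe_fn_symm_mk]
    ext <;> simp; ring

/-- the ping-pong action -/
def act : F2 →* Equiv.Perm (ℤ × ℤ) := FreeGroup.lift ![pa, pb]

theorem act_gen (t : Bool) (n : ℤ) : act (gen t ^ n) = if t then pb ^ n else pa ^ n := by
  rw [map_zpow]
  cases t
  · simp [gen, act, ga]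
  · simp [gen, act, gb]

/-- dominance of a coordinate -/
def Dom (t : Bool) (v : ℤ × ℤ) : Prop := if t then |v.1| < |v.2| else |v.2| < |v.1|

theorem abs_step (n x y : ℤ) (hn : n ≠ 0) (h : |x| < |y|) : |y| < |x + 2 * n * y| := by
  have h1 : 1 ≤ |n| := Int.one_le_abs hn
  have h2 : |2 * n * y| = 2 * |n| * |y| := by rw [abs_mul, abs_mul]; norm_num
  have h3 : |2 * n * y| ≤ |x + 2 * n * y| + |x| := by
    have := abs_sub (x + 2 * n * y) x
    simpa using this
  have h4 : 0 ≤ |y| := abs_nonneg y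
  nlinarith

/-- start vector for a word which ends with type `t` -/
theorem dom_step (t : Bool) (n : ℤ) (hn : n ≠ 0) (v : ℤ × ℤ) (h : Dom (!t) v) :
    Dom t (act (gen t ^ n) v) ∧
      max |v.1| |v.2| < max |(act (gen t ^ n) v).1| |(act (gen t ^ n) v).2| := by
  rw [act_gen]
  cases t
  · simp only [Dom, Bool.not_false, if_true, Bool.false_eq_true, if_false] at h ⊢
    rw [pa_zpow]
    have := abs_step n v.1 v.2 hn h
    refine ⟨this, ?_⟩
    simp only
    rw [max_eq_right h.le, max_eq_left this.le]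
    exact this
  · simp only [Dom, Bool.not_true, if_true, Bool.false_eq_true, if_false] at h ⊢
    rw [pb_zpow]
    have := abs_step n v.2 v.1 hn h
    refine ⟨this, ?_⟩
    simp only
    rw [max_eq_left h.le, max_eq_right this.le]
    exact this

theorem ev_grow (L : List ℤ) (hL : ∀ x ∈ L, x ≠ 0) (hne : L ≠ []) (t : Bool) :
    ∃ v : ℤ × ℤ, Dom t (act (ev t L) v) ∧
      max |v.1| |v.2| < max |(act (ev t L) v).1| |(act (ev t L) v).2| := by
  induction L generalizing t with
  | nil => exact absurd rfl hne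
  | cons x L ih =>
    have hx : x ≠ 0 := hL x (by simp)
    by_cases hLn : L = []
    · subst hLn
      have h0 : Dom (!t) (if t then ((1, 0) : ℤ × ℤ) else (0, 1)) := by
        cases t <;> simp [Dom]
      refine ⟨if t then ((1, 0) : ℤ × ℤ) else (0, 1), ?_⟩
      have := dom_step t x hx _ h0
      simpa [ev] using this
    · obtain ⟨v, h1, h2⟩ := ih (fun y hy => hL y (by simp [hy])) hLn (!t)
      refine ⟨v, ?_⟩
      have h3 := dom_step t x hx _ h1
      rw [ev, map_mul, Equiv.Perm.mul_apply]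
      exact ⟨h3.1, lt_trans h2 h3.2⟩

theorem ev_ne_one (L : List ℤ) (hL : ∀ x ∈ L, x ≠ 0) (hne : L ≠ []) (t : Bool) :
    ev t L ≠ 1 := by
  obtain ⟨v, _, h2⟩ := ev_grow L hL hne t
  intro h
  rw [h, map_one, Equiv.Perm.one_apply] at h2
  exact lt_irrefl _ h2

/-! ### Blocks -/

/-- the block `b^x a^x b^x` -/
def blk (x : ℤ) : F2 := gb ^ x * (ga ^ x * gb ^ x)

/-- `v = b^x a^x (…)` in normal form, with exponents at most `3 N` -/
def Wf (N : ℕ) (x : ℤ) (v : F2) : Prop := ∃ R, OK (3 * N) R ∧ v = ev true (x :: x :: R)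

theorem mul_block (D N : ℕ) (x : ℤ) (hx : |x| = N) (hDN : 2 * D < N) (t : Bool) (L : List ℤ)
    (hL : OK D L) (hne : L ≠ []) (R₁ : List ℤ) (hR : OK (3 * N) R₁) :
    ∃ y R', OK (3 * N) (y :: R') ∧ ev t L * ev true (x :: R₁) = ev t (y :: R') ∧
      (|y| ≤ D ∨ (t = true ∧ ∃ z : ℤ, |z| ≤ D ∧ y = z + x)) := by
  have hx0 : x ≠ 0 := by
    rintro rfl
    simp at hx
    omega
  induction L generalizing t with
  | nil => exact absurd rfl hne
  | cons z L ih =>
    obtain ⟨hz, hz'⟩ := hL.head
    have hz3 : |z| ≤ ((3 * N : ℕ) : ℤ) := by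
      have : (D : ℤ) ≤ ((3 * N : ℕ) : ℤ) := by exact_mod_cast (by omega : D ≤ 3 * N)
      linarith
    by_cases hLn : L = []
    · subst hLn
      cases t
      · refine ⟨z, x :: R₁, OK.cons hz hz3 (OK.cons hx0 ?_ hR), by simp [ev], Or.inl hz'⟩
        rw [hx]; exact_mod_cast (by omega : N ≤ 3 * N)
      · refine ⟨z + x, R₁, OK.cons ?_ ?_ hR, ?_, Or.inr ⟨rfl, z, hz', rfl⟩⟩
        · intro h
          have h1 : z = -x := by linarith
          rw [h1, abs_neg, hx] at hz'
          have : N ≤ D := by exact_mod_cast hz'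
          omega
        · have h1 := abs_add_le z x
          rw [hx] at h1
          have : (D : ℤ) + N ≤ ((3 * N : ℕ) : ℤ) := by exact_mod_cast (by omega : D + N ≤ 3 * N)
          linarith
        · simp only [ev]
          rw [mul_one, ← mul_assoc, ← zpow_add]
    · obtain ⟨y, R', h1, h2, h3⟩ := ih (!t) hL.tail hLn
      refine ⟨z, y :: R', OK.cons hz hz3 h1, ?_, Or.inl hz'⟩
      rw [ev, mul_assoc, h2]
      simp only [ev]

/-- adding a block on the left -/
theorem block_step (D N : ℕ) (x : ℤ) (hx : |x| = N) (hDN : 2 * D < N) (d v : F2) (hd : Bd D d)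
    (hv : v = 1 ∨ Wf N x v) : Wf N x (blk x * d * v) := by
  have hx0 : x ≠ 0 := by
    rintro rfl
    simp at hx
    omega
  have hxN : |x| ≤ ((3 * N : ℕ) : ℤ) := by
    rw [hx]; exact_mod_cast (by omega : N ≤ 3 * N)
  -- it suffices to bring `b^x d v` to the form `ev true (y :: R)`
  have key : ∃ y R, OK (3 * N) (y :: R) ∧ gb ^ x * (d * v) = ev true (y :: R) := by
    obtain ⟨t, L, hL, rfl⟩ := hd
    have hL3 : OK (3 * N) L := hL.mono (by omega)
    rcases hv with rfl | ⟨R₀, hR₀, rfl⟩
    · rw [mul_one]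
      rcases L with _ | ⟨z, L⟩
      · exact ⟨x, [], OK.cons hx0 hxN (OK.nil _), by simp [ev, gen]⟩
      · cases t
        · exact ⟨x, z :: L, OK.cons hx0 hxN hL3, by simp [ev, gen]⟩
        · obtain ⟨hz, hz'⟩ := hL.head
          refine ⟨x + z, L, OK.cons ?_ ?_ hL3.tail, ?_⟩
          · intro h
            have h1 : z = -x := by linarith
            rw [h1, abs_neg, hx] at hz'
            have : N ≤ D := by exact_mod_cast hz'
            omega
          · have h1 := abs_add_le x z
            rw [hx] at h1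
            have : (N : ℤ) + D ≤ ((3 * N : ℕ) : ℤ) := by
              exact_mod_cast (by omega : N + D ≤ 3 * N)
            linarith
          · simp only [ev, gen, if_true]
            rw [← mul_assoc, ← zpow_add]
    · have hR₁ : OK (3 * N) (x :: R₀) := OK.cons hx0 hxN hR₀
      by_cases hLn : L = []
      · subst hLn
        refine ⟨x + x, x :: R₀, OK.cons (by omega) ?_ hR₁, ?_⟩
        · have h1 := abs_add_le x x
          rw [hx] at h1
          have : (N : ℤ) + N ≤ ((3 * N : ℕ) : ℤ) := by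
            exact_mod_cast (by omega : N + N ≤ 3 * N)
          linarith
        · simp only [ev, gen, if_true, one_mul]
          rw [← mul_assoc, ← zpow_add]
      · obtain ⟨y, R', h1, h2, h3⟩ := mul_block D N x hx hDN t L hL hLn (x :: R₀) hR₁
        rw [h2]
        cases t
        · exact ⟨x, y :: R', OK.cons hx0 hxN h1, by simp [ev, gen]⟩
        · have hxa : (N : ℤ) = |x| := hx.symm
          have hDN' : 2 * (D : ℤ) < N := by exact_mod_cast hDN
          refine ⟨x + y, R', OK.cons ?_ ?_ h1.tail, ?_⟩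
          · intro h
            rcases h3 with h3 | ⟨_, z, hz, rfl⟩
            · have h4 : y = -x := by linarith
              rw [h4, abs_neg, hx] at h3
              linarith [Int.natCast_nonneg D]
            · have h4 : z = -(2 * x) := by linarith
              rw [h4, abs_neg, abs_mul, hx] at hz
              norm_num at hz
              linarith [Int.natCast_nonneg D]
          · push_cast
            rcases h3 with h3 | ⟨_, z, hz, rfl⟩
            · have h1 := abs_add_le x y
              linarith [Int.natCast_nonneg D]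
            · have h1 := abs_add_le x (z + x)
              have h2 := abs_add_le z x
              linarith [Int.natCast_nonneg D]
          · simp only [ev, gen, if_true]
            rw [← mul_assoc, ← zpow_add]
  obtain ⟨y, R, h1, h2⟩ := key
  refine ⟨y :: R, h1, ?_⟩
  have : blk x * d * v = gb ^ x * (ga ^ x * (gb ^ x * (d * v))) := by
    simp only [blk, mul_assoc]
  rw [this, h2]
  simp [ev, gen]

/-- a small element times a block word is nontrivial and bounded -/
theorem block_final (D N : ℕ) (x : ℤ) (hx : |x| = N) (hDN : 2 * D < N) (d v : F2) (hd : Bd D d)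
    (hv : Wf N x v) : Bd (3 * N) (d * v) ∧ d * v ≠ 1 := by
  have hx0 : x ≠ 0 := by
    rintro rfl
    simp at hx
    omega
  have hxN : |x| ≤ ((3 * N : ℕ) : ℤ) := by
    rw [hx]; exact_mod_cast (by omega : N ≤ 3 * N)
  obtain ⟨t, L, hL, rfl⟩ := hd
  obtain ⟨R₀, hR₀, rfl⟩ := hv
  have hR₁ : OK (3 * N) (x :: R₀) := OK.cons hx0 hxN hR₀
  by_cases hLn : L = []
  · subst hLn
    have h2 : ev t [] * ev true (x :: x :: R₀) = ev true (x :: x :: R₀) := by simp [ev]
    rw [h2]
    have h3 : OK (3 * N) (x :: x :: R₀) := OK.cons hx0 hxN hR₁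
    exact ⟨⟨true, _, h3, rfl⟩, ev_ne_one _ (fun y hy => (h3 y hy).1) (by simp) _⟩
  · obtain ⟨y, R', h1, h2, _⟩ := mul_block D N x hx hDN t L hL hLn (x :: R₀) hR₁
    rw [h2]
    exact ⟨⟨t, _, h1, rfl⟩, ev_ne_one _ (fun y hy => (h1 y hy).1) (by simp) _⟩

end Pool.Agent.Lib.MP_3ace2b_pr
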